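import Pool.Agent.helper75.IQ.Spec

set_option autoImplicit false

namespace Pool.Agent.helper75.IQ

open MeasureTheory Set Filter Topology

/-- the shear -/
noncomputable def EQA_sh (s : ℝ) (U : ℝ × ℝ → ℝ) (p : Sp) : Sp := (p.1, p.2.1, s * p.2.2 + U (pr p))

lemma EQA_cpr : Continuous pr := by
  unfold pr
  fun_prop

lemma EQA_cnq : Continuous nq := by
  unfold nq
  fun_prop

lemma EQA_mp (s : ℝ) (hs : s = 1 ∨ s = -1) (U : ℝ × ℝ → ℝ) (hU : Measurable U) :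
    MeasurePreserving (EQA_sh s U) (volume : Measure Sp) volume := by
  have h1 : ∀ c : ℝ, MeasurePreserving (fun v : ℝ => s * v + c) volume volume := by
    intro c
    rcases hs with rfl | rfl
    · have e : (fun v : ℝ => 1 * v + c) = (fun x => x + c) := by
        funext v
        rw [one_mul]
      rw [e]
      exact measurePreserving_add_right volume c
    · have h := (measurePreserving_add_right (volume : Measure ℝ) c).comp
        (Measure.measurePreserving_neg volume)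
      have e : (fun v : ℝ => (-1) * v + c) = (fun x => x + c) ∘ Neg.neg := by
        funext v
        simp
      rw [e]
      exact h
  have h2 : ∀ x : ℝ, MeasurePreserving (fun q : ℝ × ℝ => (q.1, s * q.2 + U (x, q.1)))
      (volume : Measure (ℝ × ℝ)) volume := by
    intro x
    exact (MeasurePreserving.id (volume : Measure ℝ)).skew_product
      (g := fun y v => s * v + U (x, y))
      (by
        unfold Function.uncurry
        fun_prop)
      (Eventually.of_forall fun y => (h1 _).map_eq)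
  exact (MeasurePreserving.id (volume : Measure ℝ)).skew_product
    (g := fun x (q : ℝ × ℝ) => (q.1, s * q.2 + U (x, q.1)))
    (by
      unfold Function.uncurry
      fun_prop)
    (Eventually.of_forall fun x => (h2 x).map_eq)

open Classical in
/-- the height function, `0` outside the disc -/
noncomputable def EQA_U (κ τ R : ℝ) : ℝ × ℝ → ℝ :=
  {q : ℝ × ℝ | nq q < R ^ 2}.piecewise (fun q => hgt κ τ R (nq q)) 0

lemma EQA_U_of {κ τ R : ℝ} {q : ℝ × ℝ} (hq : nq q < R ^ 2) : EQA_U κ τ R q = hgt κ τ R (nq q) :=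
  piecewise_eq_of_mem _ _ _ hq

lemma EQA_open (R : ℝ) : IsOpen {q : ℝ × ℝ | nq q < R ^ 2} :=
  isOpen_lt EQA_cnq continuous_const

lemma EQA_cyl (R : ℝ) : IsOpen {p : Sp | nq (pr p) < R ^ 2} :=
  isOpen_lt (EQA_cnq.comp EQA_cpr) continuous_const

lemma EQA_U_meas {κ τ R : ℝ} (h : ContinuousOn (hgt κ τ R) (Iic (R ^ 2))) :
    Measurable (EQA_U κ τ R) := by
  classical
  unfold EQA_U
  refine ContinuousOn.measurable_piecewise ?_ continuous_zero.continuousOn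
    (EQA_open R).measurableSet
  refine h.comp EQA_cnq.continuousOn ?_
  intro q hq
  have hq' : nq q < R ^ 2 := hq
  exact hq'.le

/-- the inverse shear -/
noncomputable def EQA_Psi (κ τ R s : ℝ) : Sp → Sp := EQA_sh s (fun q => -EQA_U κ τ R q)

/-- the shear -/
noncomputable def EQA_Phi (κ τ R s : ℝ) : Sp → Sp := EQA_sh s (fun q => s * EQA_U κ τ R q)

lemma EQA_ss {s : ℝ} (hs : s = 1 ∨ s = -1) : s * s = 1 := by
  rcases hs with rfl | rfl <;> norm_num

lemma EQA_pr (s : ℝ) (U : ℝ × ℝ → ℝ) (p : Sp) : pr (EQA_sh s U p) = pr p := rfl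

lemma EQA_PP (κ τ R s : ℝ) (hs : s = 1 ∨ s = -1) (p : Sp) :
    EQA_Phi κ τ R s (EQA_Psi κ τ R s p) = p := by
  have h := EQA_ss hs
  unfold EQA_Phi EQA_Psi
  rw [EQA_sh, EQA_pr]
  unfold EQA_sh
  refine Prod.ext rfl (Prod.ext rfl ?_)
  simp only
  linear_combination p.2.2 * h

lemma EQA_PP' (κ τ R s : ℝ) (hs : s = 1 ∨ s = -1) (p : Sp) :
    EQA_Psi κ τ R s (EQA_Phi κ τ R s p) = p := by
  have h := EQA_ss hs
  unfold EQA_Phi EQA_Psi
  rw [EQA_sh, EQA_pr]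
  unfold EQA_sh
  refine Prod.ext rfl (Prod.ext rfl ?_)
  simp only
  linear_combination (p.2.2 + EQA_U κ τ R (pr p)) * h

lemma EQA_Psi_eq {κ τ R : ℝ} (s : ℝ) {q : Sp} (hq : nq (pr q) < R ^ 2) :
    EQA_Psi κ τ R s q = (q.1, q.2.1, s * q.2.2 - hgt κ τ R (nq (pr q))) := by
  unfold EQA_Psi EQA_sh
  refine Prod.ext rfl (Prod.ext rfl ?_)
  change s * q.2.2 + -EQA_U κ τ R (pr q) = s * q.2.2 - hgt κ τ R (nq (pr q))
  rw [EQA_U_of hq]
  ring

lemma EQA_Phi_eq {κ τ R : ℝ} (s : ℝ) {q : Sp} (hq : nq (pr q) < R ^ 2) :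
    EQA_Phi κ τ R s q = (q.1, q.2.1, s * q.2.2 + s * hgt κ τ R (nq (pr q))) := by
  unfold EQA_Phi EQA_sh
  refine Prod.ext rfl (Prod.ext rfl ?_)
  change s * q.2.2 + s * EQA_U κ τ R (pr q) = s * q.2.2 + s * hgt κ τ R (nq (pr q))
  rw [EQA_U_of hq]

lemma EQA_contDiff {κ τ R : ℝ}
    (h1 : ∀ w, w < R ^ 2 → HasDerivAt (hgt κ τ R) (dh κ τ R w) w)
    (h2 : ContinuousOn (dh κ τ R) (Iio (R ^ 2))) : ContDiffOn ℝ 1 (hgt κ τ R) (Iio (R ^ 2)) := by
  have h0 := (contDiffOn_succ_iff_deriv_of_isOpen (𝕜 := ℝ) (n := 0) (f := hgt κ τ R)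
    (isOpen_Iio (a := R ^ 2))).2
    ⟨fun w hw => (h1 w hw).differentiableAt.differentiableWithinAt, by simp,
      contDiffOn_zero.2 (h2.congr fun w hw => (h1 w hw).deriv)⟩
  simpa using h0

/-- the derivative of `x² + y²` -/
lemma EQA_dnq (p : Sp) : HasFDerivAt (fun p : Sp => nq (pr p))
    ((2 * p.1) • ContinuousLinearMap.fst ℝ ℝ (ℝ × ℝ) +
      (2 * p.2.1) • (ContinuousLinearMap.fst ℝ ℝ ℝ).comp (ContinuousLinearMap.snd ℝ ℝ (ℝ × ℝ)))
    p := by
  have h1 : HasFDerivAt (fun p : Sp => p.1) (ContinuousLinearMap.fst ℝ ℝ (ℝ × ℝ)) p :=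
    hasFDerivAt_fst
  have h2 : HasFDerivAt (fun p : Sp => p.2.1)
      ((ContinuousLinearMap.fst ℝ ℝ ℝ).comp (ContinuousLinearMap.snd ℝ ℝ (ℝ × ℝ))) p :=
    hasFDerivAt_fst.comp p hasFDerivAt_snd
  have h3 := (h1.mul h1).add (h2.mul h2)
  have e : (fun p : Sp => nq (pr p)) =
      ((fun p : Sp => p.1) * (fun p : Sp => p.1)) + ((fun p : Sp => p.2.1) * (fun p : Sp => p.2.1)) := by
    funext q
    simp only [nq, pr, Pi.add_apply, Pi.mul_apply]
    ring
  rw [e]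
  refine HasFDerivAt.congr_fderiv h3 ?_
  ext v <;> simp <;> ring

lemma EQA_dPsi {κ τ R : ℝ} (s : ℝ)
    (h1 : ∀ w, w < R ^ 2 → HasDerivAt (hgt κ τ R) (dh κ τ R w) w) (p : Sp)
    (hp : nq (pr p) < R ^ 2) :
    HasFDerivAt (EQA_Psi κ τ R s)
      ((ContinuousLinearMap.fst ℝ ℝ (ℝ × ℝ)).prod
        (((ContinuousLinearMap.fst ℝ ℝ ℝ).comp (ContinuousLinearMap.snd ℝ ℝ (ℝ × ℝ))).prod
          (s • (ContinuousLinearMap.snd ℝ ℝ ℝ).comp (ContinuousLinearMap.snd ℝ ℝ (ℝ × ℝ)) -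
            dh κ τ R (nq (pr p)) • ((2 * p.1) • ContinuousLinearMap.fst ℝ ℝ (ℝ × ℝ) +
      (2 * p.2.1) • (ContinuousLinearMap.fst ℝ ℝ ℝ).comp (ContinuousLinearMap.snd ℝ ℝ (ℝ × ℝ))))))
      p := by
  have a1 : HasFDerivAt (fun p : Sp => p.1) (ContinuousLinearMap.fst ℝ ℝ (ℝ × ℝ)) p :=
    hasFDerivAt_fst
  have a2 : HasFDerivAt (fun p : Sp => p.2.1)
      ((ContinuousLinearMap.fst ℝ ℝ ℝ).comp (ContinuousLinearMap.snd ℝ ℝ (ℝ × ℝ))) p :=
    hasFDerivAt_fst.comp p hasFDerivAt_snd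
  have a3 : HasFDerivAt (fun p : Sp => p.2.2)
      ((ContinuousLinearMap.snd ℝ ℝ ℝ).comp (ContinuousLinearMap.snd ℝ ℝ (ℝ × ℝ))) p :=
    hasFDerivAt_snd.comp p hasFDerivAt_snd
  have a4 := (h1 _ hp).comp_hasFDerivAt p (EQA_dnq p)
  have a5 := (a3.const_mul s).sub a4
  have a6 := a1.prodMk (a2.prodMk a5)
  refine a6.congr_of_eventuallyEq ?_
  filter_upwards [(EQA_cyl R).mem_nhds hp] with q hq
  rw [EQA_Psi_eq s hq]
  rfl

lemma EQA_cdPsi {κ τ R : ℝ} (s : ℝ) (h : ContDiffOn ℝ 1 (hgt κ τ R) (Iio (R ^ 2))) (p : Sp)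
    (hp : nq (pr p) < R ^ 2) : ContDiffAt ℝ 1 (EQA_Psi κ τ R s) p := by
  have h1 : ContDiffAt ℝ 1 (hgt κ τ R) (nq (pr p)) := h.contDiffAt (Iio_mem_nhds hp)
  have h2 : ContDiffAt ℝ 1 (fun q : Sp => nq (pr q)) p := by
    unfold nq pr
    fun_prop
  have h3 : ContDiffAt ℝ 1 (fun q : Sp => hgt κ τ R (nq (pr q))) p :=
    ContDiffAt.comp (g := hgt κ τ R) (f := fun q : Sp => nq (pr q)) p h1 h2
  have h4 : ContDiffAt ℝ 1 (fun q : Sp => ((q.1, q.2.1, s * q.2.2 - hgt κ τ R (nq (pr q))) : Sp))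
      p := by
    refine contDiffAt_fst.prodMk (ContDiffAt.prodMk ?_ (ContDiffAt.sub ?_ h3))
    · fun_prop
    · fun_prop
  refine h4.congr_of_eventuallyEq ?_
  filter_upwards [(EQA_cyl R).mem_nhds hp] with q hq
  rw [EQA_Psi_eq s hq]

lemma EQA_cPhi {κ τ R : ℝ} (s : ℝ) (h : ContinuousOn (hgt κ τ R) (Iic (R ^ 2))) :
    ContinuousOn (EQA_Phi κ τ R s) {p : Sp | nq (pr p) < R ^ 2} := by
  have h1 : ContinuousOn (fun q : Sp => hgt κ τ R (nq (pr q))) {p : Sp | nq (pr p) < R ^ 2} :=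
    h.comp (EQA_cnq.comp EQA_cpr).continuousOn (fun q hq => by
      have : nq (pr q) < R ^ 2 := hq
      exact this.le)
  have h2 : ContinuousOn (fun q : Sp => ((q.1, q.2.1, s * q.2.2 +
      s * hgt κ τ R (nq (pr q))) : Sp)) {p : Sp | nq (pr p) < R ^ 2} := by
    fun_prop
  refine h2.congr fun q hq => ?_
  rw [EQA_Phi_eq s hq]

/-- derivatives of the transformed test functions -/
lemma EQA_der {κ τ R : ℝ} (s : ℝ) (hs : s = 1 ∨ s = -1)
    (h1 : ∀ w, w < R ^ 2 → HasDerivAt (hgt κ τ R) (dh κ τ R w) w) (φ : Sp → ℝ)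
    (hφ : ContDiff ℝ 1 φ) (p : Sp) (hp : nq (pr p) < R ^ 2) :
    fderiv ℝ (fun q => φ (EQA_Psi κ τ R s q)) p (1, 0, 0) +
      s * (2 * p.1 * dh κ τ R (nq (pr p))) *
        fderiv ℝ (fun q => φ (EQA_Psi κ τ R s q)) p (0, 0, 1) =
      fderiv ℝ φ (EQA_Psi κ τ R s p) (1, 0, 0) ∧
    fderiv ℝ (fun q => φ (EQA_Psi κ τ R s q)) p (0, 1, 0) +
      s * (2 * p.2.1 * dh κ τ R (nq (pr p))) *
        fderiv ℝ (fun q => φ (EQA_Psi κ τ R s q)) p (0, 0, 1) =
      fderiv ℝ φ (EQA_Psi κ τ R s p) (0, 1, 0) ∧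
    fderiv ℝ (fun q => φ (EQA_Psi κ τ R s q)) p (0, 0, 1) =
      s * fderiv ℝ φ (EQA_Psi κ τ R s p) (0, 0, 1) := by
  have hd : HasFDerivAt φ (fderiv ℝ φ (EQA_Psi κ τ R s p)) (EQA_Psi κ τ R s p) :=
    (hφ.differentiable one_ne_zero _).hasFDerivAt
  have h2 := (hd.comp p (EQA_dPsi s h1 p hp)).fderiv
  have h3 : (φ ∘ EQA_Psi κ τ R s) = fun q => φ (EQA_Psi κ τ R s q) := rfl
  rw [h3] at h2
  rw [h2]
  generalize fderiv ℝ φ (EQA_Psi κ τ R s p) = L
  have hss := EQA_ss hs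
  have e1 : ((1 : ℝ), (0 : ℝ), -(dh κ τ R (nq (pr p)) * (2 * p.1))) =
      ((1, 0, 0) : Sp) + (-(dh κ τ R (nq (pr p)) * (2 * p.1))) • ((0, 0, 1) : Sp) := by
    simp
  have e2 : ((0 : ℝ), (1 : ℝ), -(dh κ τ R (nq (pr p)) * (2 * p.2.1))) =
      ((0, 1, 0) : Sp) + (-(dh κ τ R (nq (pr p)) * (2 * p.2.1))) • ((0, 0, 1) : Sp) := by
    simp
  have e3 : ((0 : ℝ), (0 : ℝ), s) = s • ((0, 0, 1) : Sp) := by
    simp
  have f1 : L (1, 0, -(dh κ τ R (nq (pr p)) * (2 * p.1))) =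
      L (1, 0, 0) + (-(dh κ τ R (nq (pr p)) * (2 * p.1))) * L (0, 0, 1) := by
    rw [e1, map_add, map_smul, smul_eq_mul]
  have f2 : L (0, 1, -(dh κ τ R (nq (pr p)) * (2 * p.2.1))) =
      L (0, 1, 0) + (-(dh κ τ R (nq (pr p)) * (2 * p.2.1))) * L (0, 0, 1) := by
    rw [e2, map_add, map_smul, smul_eq_mul]
  have f3 : L (0, 0, s) = s * L (0, 0, 1) := by
    rw [e3, map_smul, smul_eq_mul]
  refine ⟨?_, ?_, ?_⟩
  · simp only [ContinuousLinearMap.comp_apply, ContinuousLinearMap.prod_apply,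
      ContinuousLinearMap.coe_fst', ContinuousLinearMap.coe_snd', _root_.sub_apply,
      _root_.smul_apply, _root_.add_apply, smul_eq_mul, mul_zero,
      mul_one, add_zero, zero_add, zero_sub, sub_zero]
    rw [f1, f3]
    linear_combination (2 * p.1 * dh κ τ R (nq (pr p)) * L (0, 0, 1)) * hss
  · simp only [ContinuousLinearMap.comp_apply, ContinuousLinearMap.prod_apply,
      ContinuousLinearMap.coe_fst', ContinuousLinearMap.coe_snd', _root_.sub_apply,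
      _root_.smul_apply, _root_.add_apply, smul_eq_mul, mul_zero,
      mul_one, add_zero, zero_add, zero_sub, sub_zero]
    rw [f2, f3]
    linear_combination (2 * p.2.1 * dh κ τ R (nq (pr p)) * L (0, 0, 1)) * hss
  · simp only [ContinuousLinearMap.comp_apply, ContinuousLinearMap.prod_apply,
      ContinuousLinearMap.coe_fst', ContinuousLinearMap.coe_snd', _root_.sub_apply,
      _root_.smul_apply, _root_.add_apply, smul_eq_mul, mul_zero,
      mul_one, add_zero, zero_add, zero_sub, sub_zero]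
    rw [f3]

/-- the transformed test functions -/
lemma EQA_test {κ τ R : ℝ} (s : ℝ) (hs : s = 1 ∨ s = -1)
    (hc : ContinuousOn (hgt κ τ R) (Iic (R ^ 2)))
    (h : ContDiffOn ℝ 1 (hgt κ τ R) (Iio (R ^ 2))) (φ : Sp → ℝ) (hφ : Test R φ) :
    Test R (fun q => φ (EQA_Psi κ τ R s q)) := by
  have hK : IsCompact (EQA_Phi κ τ R s '' tsupport φ) :=
    hφ.cs.image_of_continuousOn ((EQA_cPhi s hc).mono fun p hp => hφ.sup p hp)
  have hKc : EQA_Phi κ τ R s '' tsupport φ ⊆ {p : Sp | nq (pr p) < R ^ 2} := by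
    rintro _ ⟨p, hp, rfl⟩
    exact hφ.sup p hp
  have h0 : ∀ p, p ∉ EQA_Phi κ τ R s '' tsupport φ → φ (EQA_Psi κ τ R s p) = 0 := by
    intro p hp
    by_contra hne
    exact hp ⟨EQA_Psi κ τ R s p, subset_tsupport _ hne, EQA_PP κ τ R s hs p⟩
  refine ⟨?_, HasCompactSupport.intro hK h0, fun p hp => ?_⟩
  · rw [contDiff_iff_contDiffAt]
    intro p
    by_cases hp : nq (pr p) < R ^ 2
    · exact (hφ.c1.contDiffAt).comp p (EQA_cdPsi s h p hp)
    · have h1 : p ∉ EQA_Phi κ τ R s '' tsupport φ := fun hh => hp (hKc hh)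
      have h2 : (fun q => φ (EQA_Psi κ τ R s q)) =ᶠ[𝓝 p] fun _ => (0 : ℝ) := by
        filter_upwards [hK.isClosed.isOpen_compl.mem_nhds h1] with q hq
        exact h0 q hq
      exact (contDiffAt_const (c := (0 : ℝ))).congr_of_eventuallyEq h2
  · have h1 : tsupport (fun q => φ (EQA_Psi κ τ R s q)) ⊆ EQA_Phi κ τ R s '' tsupport φ := by
      refine closure_minimal ?_ hK.isClosed
      intro q hq
      by_contra hne
      exact hq (h0 q hne)
    exact hKc (h1 hp)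

/-! ### The set -/

lemma EQA_Fmeas {R s : ℝ} {m : ℝ × ℝ → ℝ} {E : Set Sp} (hE : IsCompact E)
    (hm : ContinuousOn m {q | nq q < R ^ 2}) : MeasurableSet (fill R s m E) := by
  have h1 : ContinuousOn (fun p : Sp => s * (p.2.2 - m (pr p))) {p : Sp | nq (pr p) < R ^ 2} := by
    have h2 : ContinuousOn (fun p : Sp => m (pr p)) {p : Sp | nq (pr p) < R ^ 2} :=
      hm.comp EQA_cpr.continuousOn fun p hp => hp
    have h3 : ContinuousOn (fun p : Sp => p.2.2) {p : Sp | nq (pr p) < R ^ 2} :=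
      (continuous_snd.comp continuous_snd).continuousOn
    exact (h3.sub h2).const_smul s
  have h3 := h1.isOpen_inter_preimage (EQA_cyl R) (isOpen_Ioi (a := (0 : ℝ)))
  have h4 : fill R s m E = ({p : Sp | nq (pr p) < R ^ 2} \
      ({p : Sp | nq (pr p) < R ^ 2} ∩ (fun p : Sp => s * (p.2.2 - m (pr p))) ⁻¹' Ioi 0)) ∪
      ({p : Sp | nq (pr p) < R ^ 2} ∩ E) := by
    ext p
    simp only [fill, mem_ofPred_eq, mem_union, Set.mem_sdiff, mem_inter_iff, mem_preimage, mem_Ioi,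
      not_and, not_lt]
    tauto
  rw [h4]
  exact ((EQA_cyl R).measurableSet.diff h3.measurableSet).union
    ((EQA_cyl R).measurableSet.inter hE.measurableSet)

/-- the shear as a measurable equivalence -/
noncomputable def EQA_e (κ τ R s : ℝ) (hs : s = 1 ∨ s = -1) (hU : Measurable (EQA_U κ τ R)) :
    Sp ≃ᵐ Sp where
  toFun := EQA_Phi κ τ R s
  invFun := EQA_Psi κ τ R s
  left_inv := EQA_PP' κ τ R s hs
  right_inv := EQA_PP κ τ R s hs
  measurable_toFun := (EQA_mp s hs _ (hU.const_mul s)).measurable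
  measurable_invFun := (EQA_mp s hs _ hU.neg).measurable

lemma EQA_int {κ τ R s : ℝ} (hs : s = 1 ∨ s = -1) (hU : Measurable (EQA_U κ τ R)) {F : Set Sp}
    (hF : MeasurableSet F) (h : Sp → ℝ) :
    ∫ p in F, h (EQA_Psi κ τ R s p) =
      ∫ p, (EQA_Phi κ τ R s ⁻¹' F).indicator 1 p * h p := by
  rw [← integral_indicator hF]
  have h1 : MeasurePreserving (EQA_e κ τ R s hs hU) (volume : Measure Sp) volume :=
    EQA_mp s hs _ (hU.const_mul s)
  rw [← h1.integral_comp' (f := EQA_e κ τ R s hs hU)]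
  refine integral_congr_ae (Eventually.of_forall fun p => ?_)
  change F.indicator (fun p => h (EQA_Psi κ τ R s p)) (EQA_Phi κ τ R s p) =
    (EQA_Phi κ τ R s ⁻¹' F).indicator 1 p * h p
  by_cases hp : EQA_Phi κ τ R s p ∈ F
  · rw [indicator_of_mem hp, EQA_PP' κ τ R s hs, indicator_of_mem (mem_preimage.2 hp)]
    simp
  · rw [indicator_of_notMem hp, indicator_of_notMem (fun hh => hp (mem_preimage.1 hh))]
    simp

/-- almost every height has a point of the disc in an almost everywhere valid property -/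
lemma EQA_ae {R : ℝ} (hR : 0 < R) (P : Sp → Prop)
    (h : ∀ᵐ p : Sp, nq (pr p) < R ^ 2 → P p) :
    ∀ᵐ v : ℝ, ∃ q : ℝ × ℝ, nq q < R ^ 2 ∧ P ((q.1, q.2, v) : Sp) := by
  have h1 : ∀ᵐ r : (ℝ × ℝ) × ℝ, nq r.1 < R ^ 2 → P ((r.1.1, r.1.2, r.2) : Sp) :=
    (volume_preserving_prodAssoc (α₁ := ℝ) (β₁ := ℝ) (γ₁ := ℝ)).quasiMeasurePreserving.ae h
  have h2 : ∀ᵐ z : ℝ × (ℝ × ℝ) ∂((volume : Measure ℝ).prod (volume : Measure (ℝ × ℝ))),
      nq z.2 < R ^ 2 → P ((z.2.1, z.2.2, z.1) : Sp) :=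
    (Measure.measurePreserving_swap (μ := (volume : Measure ℝ))
      (ν := (volume : Measure (ℝ × ℝ)))).quasiMeasurePreserving.ae h1
  filter_upwards [Measure.ae_ae_of_ae_prod h2] with v hv
  by_contra hne
  push Not at hne
  have h3 : ∀ᵐ q : ℝ × ℝ, q ∉ {q : ℝ × ℝ | nq q < R ^ 2} := by
    filter_upwards [hv] with q hq hq2
    exact hne q hq2 (hq hq2)
  have h4 : volume {q : ℝ × ℝ | nq q < R ^ 2} = 0 := by
    rw [measure_eq_zero_iff_ae_notMem]
    exact h3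
  have h5 : 0 < volume {q : ℝ × ℝ | nq q < R ^ 2} := by
    refine (EQA_open R).measure_pos volume ⟨(0, 0), ?_⟩
    have : nq ((0 : ℝ), (0 : ℝ)) = 0 := by
      unfold nq
      simp
    rw [mem_ofPred_eq, this]
    positivity
  rw [h4] at h5
  exact lt_irrefl _ h5

lemma EQA_fub (A : ℝ × ℝ → ℝ) (B : ℝ → ℝ) :
    ∫ p : Sp, A (pr p) * B p.2.2 = (∫ q, A q) * ∫ v, B v := by
  have h := (volume_preserving_prodAssoc (α₁ := ℝ) (β₁ := ℝ) (γ₁ := ℝ)).integral_comp'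
    (g := fun p : Sp => A (pr p) * B p.2.2)
  rw [← h]
  exact integral_prod_mul A B

/-! ### The test functions `χ(q) ζ(v)` -/

/-- the bump function -/
noncomputable def EQA_b (R : ℝ) (hR : 0 < R) : ContDiffBump (0 : ℝ × ℝ) :=
  ⟨R / 4, R / 2, by positivity, by linarith⟩

lemma EQA_b_supp {R : ℝ} (hR : 0 < R) (q : ℝ × ℝ) (hq : EQA_b R hR q ≠ 0) :
    |q.1| ≤ R / 2 ∧ |q.2| ≤ R / 2 := by
  have h1 : q ∈ Metric.ball (0 : ℝ × ℝ) (R / 2) := by
    have h2 := (EQA_b R hR).support_eq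
    have h3 : q ∈ Function.support (EQA_b R hR) := hq
    rw [h2] at h3
    exact h3
  rw [mem_ball_zero_iff] at h1
  exact ⟨(norm_fst_le q).trans h1.le, (norm_snd_le q).trans h1.le⟩

lemma EQA_nq_lt {R : ℝ} (hR : 0 < R) {q : ℝ × ℝ} (h : |q.1| ≤ R / 2 ∧ |q.2| ≤ R / 2) :
    nq q < R ^ 2 := by
  unfold nq
  have h1 := sq_le_sq' (abs_le.1 h.1).1 (abs_le.1 h.1).2
  have h2 := sq_le_sq' (abs_le.1 h.2).1 (abs_le.1 h.2).2
  nlinarith

/-- the test function -/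
noncomputable def EQA_phi (κ R : ℝ) (hR : 0 < R) (ζ : ℝ → ℝ) (p : Sp) : ℝ :=
  (EQA_b R hR (pr p) * (1 + κ / 4 * nq (pr p)) ^ 2) * ζ p.2.2

lemma EQA_phi_test {κ R : ℝ} (hR : 0 < R) {ζ : ℝ → ℝ} (hζ : ContDiff ℝ 1 ζ)
    (hc : HasCompactSupport ζ) : Test R (EQA_phi κ R hR ζ) := by
  have hK : IsCompact (Icc (-(R / 2)) (R / 2) ×ˢ (Icc (-(R / 2)) (R / 2) ×ˢ tsupport ζ) : Set Sp) :=
    isCompact_Icc.prod (isCompact_Icc.prod hc)
  have h0 : ∀ p : Sp, p ∉ (Icc (-(R / 2)) (R / 2) ×ˢ (Icc (-(R / 2)) (R / 2) ×ˢ tsupport ζ) :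
      Set Sp) → EQA_phi κ R hR ζ p = 0 := by
    intro p hp
    by_contra hne
    apply hp
    unfold EQA_phi at hne
    have h1 : EQA_b R hR (pr p) ≠ 0 := by
      intro h
      apply hne
      rw [h, zero_mul, zero_mul]
    have h2 : ζ p.2.2 ≠ 0 := by
      intro h
      apply hne
      rw [h, mul_zero]
    have h3 := EQA_b_supp hR (pr p) h1
    exact ⟨abs_le.1 h3.1, abs_le.1 h3.2, subset_tsupport _ h2⟩
  have hpr : ContDiff ℝ 1 pr := by
    unfold pr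
    fun_prop
  refine ⟨?_, HasCompactSupport.intro hK h0, fun p hp => ?_⟩
  · unfold EQA_phi
    have a1 : ContDiff ℝ 1 (fun p : Sp => EQA_b R hR (pr p)) := (EQA_b R hR).contDiff.comp hpr
    have a2 : ContDiff ℝ 1 (fun p : Sp => (1 + κ / 4 * nq (pr p)) ^ 2) := by
      unfold nq pr
      fun_prop
    have a3 : ContDiff ℝ 1 (fun p : Sp => ζ p.2.2) := hζ.comp (by fun_prop)
    exact (a1.mul a2).mul a3
  · have h1 : tsupport (EQA_phi κ R hR ζ) ⊆
        (Icc (-(R / 2)) (R / 2) ×ˢ (Icc (-(R / 2)) (R / 2) ×ˢ tsupport ζ) : Set Sp) := by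
      refine closure_minimal ?_ hK.isClosed
      intro q hq
      by_contra hne
      exact hq (h0 q hne)
    have h2 := h1 hp
    exact EQA_nq_lt hR ⟨abs_le.2 h2.1, abs_le.2 h2.2.1⟩

lemma EQA_phi_der {κ R : ℝ} (hR : 0 < R) {ζ : ℝ → ℝ} (hζ : ContDiff ℝ 1 ζ) (p : Sp) :
    fderiv ℝ (EQA_phi κ R hR ζ) p (0, 0, 1) =
      (EQA_b R hR (pr p) * (1 + κ / 4 * nq (pr p)) ^ 2) * deriv ζ p.2.2 := by
  have hb : ContDiff ℝ 1 (fun q : ℝ × ℝ => EQA_b R hR q * (1 + κ / 4 * nq q) ^ 2) := by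
    have a1 : ContDiff ℝ 1 (EQA_b R hR) := (EQA_b R hR).contDiff
    have a2 : ContDiff ℝ 1 (fun q : ℝ × ℝ => (1 + κ / 4 * nq q) ^ 2) := by
      unfold nq
      fun_prop
    exact a1.mul a2
  have hA := (hb.differentiable one_ne_zero (pr p)).hasFDerivAt
  have hpr : HasFDerivAt pr ((ContinuousLinearMap.fst ℝ ℝ (ℝ × ℝ)).prod
      ((ContinuousLinearMap.fst ℝ ℝ ℝ).comp (ContinuousLinearMap.snd ℝ ℝ (ℝ × ℝ)))) p :=
    hasFDerivAt_fst.prodMk (hasFDerivAt_fst.comp p hasFDerivAt_snd)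
  have a3 : HasFDerivAt (fun p : Sp => p.2.2)
      ((ContinuousLinearMap.snd ℝ ℝ ℝ).comp (ContinuousLinearMap.snd ℝ ℝ (ℝ × ℝ))) p :=
    hasFDerivAt_snd.comp p hasFDerivAt_snd
  have hB := (hζ.differentiable one_ne_zero p.2.2).hasDerivAt.comp_hasFDerivAt p a3
  have hAB := (hA.comp p hpr).mul hB
  have e : EQA_phi κ R hR ζ = ((fun q : ℝ × ℝ => EQA_b R hR q * (1 + κ / 4 * nq q) ^ 2) ∘ pr) *
      (ζ ∘ fun p : Sp => p.2.2) := by
    funext q
    rfl
  rw [e, hAB.fderiv]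
  generalize fderiv ℝ (fun q : ℝ × ℝ => EQA_b R hR q * (1 + κ / 4 * nq q) ^ 2) (pr p) = L
  have hL : L (0, 0) = 0 := by
    have : ((0 : ℝ), (0 : ℝ)) = 0 := rfl
    rw [this, map_zero]
  simp only [_root_.add_apply, _root_.smul_apply, ContinuousLinearMap.comp_apply,
    ContinuousLinearMap.prod_apply, ContinuousLinearMap.coe_fst', ContinuousLinearMap.coe_snd',
    smul_eq_mul, mul_one, Function.comp_apply, hL, mul_zero, add_zero]

theorem EQA (hHGT : HGT_stmt) (hWCL : WCL_stmt) (hMON : MON_stmt) : EQA_stmt := by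
  intro κ τ R m E hκ hE hT s hs hcon
  have hR0 := hT.r0
  have hss := EQA_ss hs
  obtain ⟨-, -, hhc, hhpos, hhd, hhdc⟩ := hHGT κ τ R hκ hR0 hT.rk
  have hcd := EQA_contDiff hhd hhdc
  have hU := EQA_U_meas hhc
  have hF : MeasurableSet (fill R s m E) := EQA_Fmeas hE hT.cm
  have hΦm : Measurable (EQA_Phi κ τ R s) := (EQA_mp s hs _ (hU.const_mul s)).measurable
  obtain ⟨g, hg⟩ : ∃ g : Sp → ℝ, g = (EQA_Phi κ τ R s ⁻¹' fill R s m E).indicator 1 := ⟨_, rfl⟩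
  have hgm : Measurable g := by
    rw [hg]
    exact measurable_one.indicator (hΦm hF)
  have hg01 : ∀ p, (EQA_Phi κ τ R s p ∈ fill R s m E ∧ g p = 1) ∨
      (EQA_Phi κ τ R s p ∉ fill R s m E ∧ g p = 0) := by
    intro p
    by_cases hp : EQA_Phi κ τ R s p ∈ fill R s m E
    · left
      refine ⟨hp, ?_⟩
      rw [hg, indicator_of_mem (mem_preimage.2 hp)]
      rfl
    · right
      refine ⟨hp, ?_⟩
      rw [hg, indicator_of_notMem (fun hh => hp (mem_preimage.1 hh))]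
  have hgb : ∀ p, |g p| ≤ 1 := by
    intro p
    rcases hg01 p with h | h
    · rw [h.2, abs_one]
    · rw [h.2, abs_zero]
      exact zero_le_one
  have hFc : ∀ p ∈ fill R s m E, nq (pr p) < R ^ 2 := fun p hp => hp.1
  obtain ⟨G, hGm, hG⟩ := hWCL R g hR0 hgm hgb (fun φ hφ => by
    have hψ := EQA_test s hs hhc hcd φ hφ
    have hc := hcon _ hψ
    have hx := hc.x
    have hy := hc.y
    constructor
    · rw [hg, ← EQA_int hs hU hF]
      refine Eq.trans ?_ hx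
      refine setIntegral_congr_fun hF fun p hp => ?_
      exact (EQA_der s hs hhd φ hφ.c1 p (hFc p hp)).1.symm
    · rw [hg, ← EQA_int hs hU hF]
      refine Eq.trans ?_ hy
      refine setIntegral_congr_fun hF fun p hp => ?_
      exact (EQA_der s hs hhd φ hφ.c1 p (hFc p hp)).2.1.symm)
  obtain ⟨S, hS⟩ : ∃ S : Set ℝ, S = {v | G v = 1} := ⟨_, rfl⟩
  have hSm : MeasurableSet S := by
    rw [hS]
    exact hGm (measurableSet_singleton 1)
  have hgS : ∀ᵐ p : Sp, nq (pr p) < R ^ 2 → (EQA_Phi κ τ R s p ∈ fill R s m E ↔ p.2.2 ∈ S) := by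
    filter_upwards [hG] with p hp hpc
    have h1 := hp hpc
    rw [hS, mem_ofPred_eq, ← h1]
    rcases hg01 p with h | h
    · exact iff_of_true h.1 h.2
    · refine iff_of_false h.1 ?_
      rw [h.2]
      exact zero_ne_one
  -- bounds
  obtain ⟨M, hM⟩ := hE.exists_bound_of_continuousOn (f := fun p : Sp => p.2.2)
    (continuous_snd.comp continuous_snd).continuousOn
  obtain ⟨B, hB⟩ := (isCompact_Icc (a := (0 : ℝ)) (b := R ^ 2)).exists_bound_of_continuousOn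
    (hhc.mono fun w hw => hw.2)
  have hnq0 : ∀ q : ℝ × ℝ, 0 ≤ nq q := by
    intro q
    unfold nq
    positivity
  have hmM : ∀ q : ℝ × ℝ, nq q < R ^ 2 → |m q| ≤ M := fun q hq =>
    hM _ (interior_subset (hT.sec q hq))
  have huB : ∀ q : ℝ × ℝ, nq q < R ^ 2 → 0 ≤ hgt κ τ R (nq q) ∧ hgt κ τ R (nq q) ≤ B :=
    fun q hq => ⟨(hhpos _ (hnq0 q) hq).le, (le_abs_self _).trans (hB _ ⟨hnq0 q, hq.le⟩)⟩
  have hPhi2 : ∀ p : Sp, nq (pr p) < R ^ 2 →
      s * ((EQA_Phi κ τ R s p).2.2 - m (pr p)) = p.2.2 + hgt κ τ R (nq (pr p)) - s * m (pr p) := by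
    intro p hp
    rw [EQA_Phi_eq s hp]
    simp only
    linear_combination (p.2.2 + hgt κ τ R (nq (pr p))) * hss
  have hPhipr : ∀ p : Sp, pr (EQA_Phi κ τ R s p) = pr p := fun p => rfl
  have habs : ∀ x : ℝ, |s * x| = |x| := by
    intro x
    rcases hs with rfl | rfl
    · rw [one_mul]
    · rw [neg_one_mul, abs_neg]
  have hlow : ∀ᵐ v : ℝ, v < -(B + M + 1) → v ∈ S := by
    filter_upwards [EQA_ae hR0 _ hgS] with v hv hvC
    obtain ⟨q, hq, hqS⟩ := hv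
    refine hqS.1 ⟨hq, Or.inl ?_⟩
    have h1 := hPhi2 (q.1, q.2, v) hq
    have h2 := hmM q hq
    have h3 := huB q hq
    have h4 : |s * m q| ≤ M := by
      rw [habs]
      exact h2
    have h5 := abs_le.1 h4
    rw [hPhipr, h1]
    change v + hgt κ τ R (nq q) - s * m q ≤ 0
    linarith [h3.2, h5.1]
  have hhigh : ∀ᵐ v : ℝ, (B + M + 1) < v → v ∉ S := by
    filter_upwards [EQA_ae hR0 _ hgS] with v hv hvC hvS
    obtain ⟨q, hq, hqS⟩ := hv
    have h0 := hqS.2 hvS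
    have h1 := hPhi2 (q.1, q.2, v) hq
    have h2 := hmM q hq
    have h3 := huB q hq
    have hB0 : 0 ≤ B := h3.1.trans h3.2
    have h4 : |s * m q| ≤ M := by
      rw [habs]
      exact h2
    have h5 := abs_le.1 h4
    rcases h0.2 with h6 | h6
    · rw [hPhipr, h1] at h6
      change v + hgt κ τ R (nq q) - s * m q ≤ 0 at h6
      linarith [h3.1, h5.2]
    · have h7 := hM _ h6
      have h8 : (EQA_Phi κ τ R s (q.1, q.2, v)).2.2 = s * (v + hgt κ τ R (nq q)) := by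
        rw [EQA_Phi_eq s (q := (q.1, q.2, v)) hq]
        change s * v + s * hgt κ τ R (nq q) = _
        ring
      rw [h8, Real.norm_eq_abs, habs] at h7
      have h9 := (abs_le.1 h7).2
      linarith [h3.1]
  have hmono : ∀ ζ : ℝ → ℝ, ContDiff ℝ 1 ζ → HasCompactSupport ζ → (∀ v, 0 ≤ ζ v) →
      0 ≤ ∫ v in S, deriv ζ v := by
    intro ζ hζ hζc hζ0
    have hφ := EQA_phi_test (κ := κ) hR0 hζ hζc
    have hψ := EQA_test s hs hhc hcd _ hφ
    have ht := (hcon _ hψ).t (fun p => by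
      unfold EQA_phi
      exact mul_nonneg (mul_nonneg (EQA_b R hR0).nonneg (sq_nonneg _)) (hζ0 _))
    have h1 : ∫ p in fill R s m E, lam κ (nq (pr p)) ^ 2 *
        fderiv ℝ (fun q => EQA_phi κ R hR0 ζ (EQA_Psi κ τ R s q)) p (0, 0, 1) =
        ∫ p, g p * (s * (lam κ (nq (pr p)) ^ 2 *
          fderiv ℝ (EQA_phi κ R hR0 ζ) p (0, 0, 1))) := by
      rw [hg, ← EQA_int hs hU hF]
      refine setIntegral_congr_fun hF fun p hp => ?_
      have h2 := (EQA_der s hs hhd _ hφ.c1 p (hFc p hp)).2.2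
      rw [h2]
      change lam κ (nq (pr p)) ^ 2 * _ = s * (lam κ (nq (pr p)) ^ 2 * _)
      ring
    rw [h1, ← integral_const_mul] at ht
    have h3 : ∀ᵐ p : Sp, s * (g p * (s * (lam κ (nq (pr p)) ^ 2 *
          fderiv ℝ (EQA_phi κ R hR0 ζ) p (0, 0, 1)))) =
        EQA_b R hR0 (pr p) * S.indicator (deriv ζ) p.2.2 := by
      filter_upwards [hgS] with p hp
      rw [EQA_phi_der hR0 hζ]
      by_cases hb : EQA_b R hR0 (pr p) = 0
      · rw [hb]
        ring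
      · have h4 := EQA_nq_lt hR0 (EQA_b_supp hR0 _ hb)
        have h5 := hp h4
        have h6 : (0 : ℝ) < 1 + κ / 4 * nq (pr p) := by
          have h7 := hT.rk
          have h8 := hnq0 (pr p)
          nlinarith
        have h9 : lam κ (nq (pr p)) * (1 + κ / 4 * nq (pr p)) = 1 := by
          unfold lam
          exact inv_mul_cancel₀ h6.ne'
        have h10 : lam κ (nq (pr p)) ^ 2 * (1 + κ / 4 * nq (pr p)) ^ 2 = 1 := by
          rw [← mul_pow, h9, one_pow]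
        rcases hg01 p with h | h
        · rw [h.2, indicator_of_mem (h5.1 h.1)]
          linear_combination (EQA_b R hR0 (pr p) * deriv ζ p.2.2) * (hss +
            (s * s) * h10)
        · rw [h.2, indicator_of_notMem (fun hh => h.1 (h5.2 hh))]
          ring
    rw [integral_congr_ae h3, EQA_fub (EQA_b R hR0) (S.indicator (deriv ζ)),
      integral_indicator hSm] at ht
    exact nonneg_of_mul_nonneg_right ht (EQA_b R hR0).integral_pos
  obtain ⟨c, hc⟩ := hMON S (B + M + 1) hSm hlow hhigh hmono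
  refine ⟨c, ?_⟩
  -- transfer
  have hΨmp : MeasurePreserving (EQA_Psi κ τ R s) (volume : Measure Sp) volume :=
    EQA_mp s hs _ hU.neg
  have h1 : ∀ᵐ p : Sp, nq (pr p) < R ^ 2 →
      (p ∈ fill R s m E ↔ (EQA_Psi κ τ R s p).2.2 ∈ S) := by
    have h2 := hΨmp.quasiMeasurePreserving.ae hgS
    filter_upwards [h2] with p hp hpc
    have h3 := hp hpc
    rwa [EQA_PP κ τ R s hs] at h3
  have h2 : ∀ᵐ p : Sp, p.2.2 ∈ S ↔ p.2.2 < c := by
    have h3 : ∀ᵐ p : ℝ × ℝ × ℝ ∂((volume : Measure ℝ).prod (volume : Measure (ℝ × ℝ))),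
        p.2 ∈ {q : ℝ × ℝ | (q.2 ∈ S ↔ q.2 < c)} := by
      refine Measure.quasiMeasurePreserving_snd.ae (p := fun q => q ∈ {q : ℝ × ℝ | (q.2 ∈ S ↔ q.2 < c)}) ?_
      exact Measure.quasiMeasurePreserving_snd.ae (p := fun v => (v ∈ S ↔ v < c)) hc
    exact h3
  have h3 := hΨmp.quasiMeasurePreserving.ae h2
  filter_upwards [h1, h3] with p hp1 hp3 hpc
  rw [hp1 hpc, hp3, EQA_Psi_eq s hpc]
  constructor
  · intro h
    linarith
  · intro h
    linarith

end Pool.Agent.helper75.IQ
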